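import Pool.Agent.MWK.Stmts

/-!
Block MWK (MP_23468a_al), row TRC: transfer of a chain.
-/

set_option autoImplicit false

namespace Pool.Agent.MWK.H46

open Pool.Agent.Helper14_MV Pool.Agent.Helper2_MV

theorem trc : TrcStmt := by
  intro m u v hA cs
  induction cs with
  | nil =>
    intro p _ h z hz
    exact (hA.count_one z).1 (h z hz)
  | cons c cs ih =>
    intro p hcs h
    obtain ⟨h1, h2, h3⟩ := h
    have hc : Dp m v c := hcs c (by simp)
    exact ⟨fun z hz => (hA.pre_count_one hc hc).1 (h1 z hz), (hA.mem c).1 h2,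
      ih [c] (fun d hd => hcs d (List.mem_cons_of_mem c hd)) h3⟩

end Pool.Agent.MWK.H46
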